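import Mathlib
import Pool.Agent.H90.GqDefs
import Pool.Agent.H90.GqE

namespace Pool.Agent.Results.MP_d7aa4b_an.Q2Poussin

open Pool.Agent.H90.Gq

theorem result (𝕜 : Type) [RCLike 𝕜] (X : Type) [NormedAddCommGroup X] [NormedSpace 𝕜 X]
    [CompleteSpace X] (e : ℕ → X) (f : ℕ → X →L[𝕜] 𝕜) (h : IsBasis e f) :
    VPQG e f → QG e f :=
  fun hv => h.qg hv

end Pool.Agent.Results.MP_d7aa4b_an.Q2Poussin
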